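import Pool.Agent.Helper88.WP.PLr
import Pool.Agent.Helper25.WH.Defs

/-!
# W++: the sum over all cells, from a zero free half plane

`plr2`: for `1/2 ≤ a ≤ 3/4`, `MB a`, `LVr (3g/(1+g)) (1-a)` and `LVH` give `PLR (1/2) ((13 + 4a)/20)`.
For `r T ≤ M^((7-4a)/10)` the numbers of large values come from `LVr`, otherwise from `LVH`.
-/

set_option autoImplicit false

namespace Pool.Agent.Helper88.WH

open ArithmeticFunction Finset
open Pool.Helper5.WB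
open Pool.Agent.Helper25.WL (LVr)
open Pool.Agent.Helper25.WH (LVH)
open Pool.Agent.Helper88.WP (rI rI_half)

/-- the grid -/
private noncomputable def gj88 (g0 ε : ℝ) (j : ℕ) : ℝ := min (1 / 2) (g0 + j * ε)

private lemma gj_mem88 {g0 ε : ℝ} (h0 : g0 ≤ 1 / 2) (hε : 0 < ε) (j : ℕ) : g0 ≤ gj88 g0 ε j ∧ gj88 g0 ε j ≤ 1 / 2 := by
  unfold gj88
  refine ⟨le_min h0 ?_, min_le_left _ _⟩
  have : 0 ≤ (j : ℝ) * ε := by positivity
  linarith

/-- the position of a value in the grid -/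
private lemma grid88 {g0 ε M x : ℝ} (hε : 0 < ε) (hM : 1 ≤ M) (h1 : M ^ (1 / 2 + ε) ≤ x)
    (h2 : x < M ^ (1 - g0 + ε)) : ∃ j ∈ range (⌈(1 / 2 - g0 : ℝ) / ε⌉₊ + 1),
      M ^ (1 - gj88 g0 ε j + ε) ≤ x ∧ x ≤ M ^ (1 - gj88 g0 ε j + 2 * ε) := by
  have hM0 : 0 < M := by linarith
  have hM1 : 1 < M := by
    rcases hM.eq_or_lt with h | h
    · rw [← h, Real.one_rpow] at h1 h2
      linarith
    · exact h
  have hx : 0 < x := lt_of_lt_of_le (Real.rpow_pos_of_pos hM0 _) h1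
  obtain ⟨y, hy⟩ : ∃ y : ℝ, y = Real.logb M x := ⟨_, rfl⟩
  have hxy : M ^ y = x := by rw [hy]; exact Real.rpow_logb hM0 hM1.ne' hx
  have hy1 : 1 / 2 + ε ≤ y := by
    rw [← hxy] at h1
    exact (Real.rpow_le_rpow_left_iff hM1).1 h1
  have hy2 : y < 1 - g0 + ε := by
    rw [← hxy] at h2
    exact (Real.rpow_lt_rpow_left_iff hM1).1 h2
  obtain ⟨u, hu⟩ : ∃ u : ℝ, u = (1 - g0 + ε - y) / ε := ⟨_, rfl⟩
  have hu0 : 0 ≤ u := by rw [hu]; exact div_nonneg (by linarith) hε.le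
  have hu1 : u ≤ (1 / 2 - g0) / ε := by
    rw [hu]
    exact div_le_div_of_nonneg_right (by linarith) hε.le
  refine ⟨⌈u⌉₊, mem_range.2 (Nat.lt_succ_of_le (Nat.ceil_mono hu1)), ?_⟩
  have hc1 : u ≤ (⌈u⌉₊ : ℝ) := Nat.le_ceil u
  have hc2 : (⌈u⌉₊ : ℝ) < u + 1 := Nat.ceil_lt_add_one hu0
  have hue : u * ε = 1 - g0 + ε - y := by
    rw [hu]
    field_simp
  have hc3 : 1 - g0 + ε - y ≤ (⌈u⌉₊ : ℝ) * ε := by
    rw [← hue]
    exact mul_le_mul_of_nonneg_right hc1 hε.le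
  have hc4 : (⌈u⌉₊ : ℝ) * ε < 1 - g0 + 2 * ε - y := by
    have := mul_lt_mul_of_pos_right hc2 hε
    rw [add_mul, one_mul, hue] at this
    linarith
  have hg1 : 1 + ε - y ≤ gj88 g0 ε ⌈u⌉₊ := by
    unfold gj88
    refine le_min (by linarith) (by linarith)
  have hg2 : gj88 g0 ε ⌈u⌉₊ ≤ g0 + (⌈u⌉₊ : ℝ) * ε := min_le_right _ _
  constructor
  · rw [← hxy]
    exact Real.rpow_le_rpow_of_exponent_le hM (by linarith)
  · rw [← hxy]
    exact Real.rpow_le_rpow_of_exponent_le hM (by linarith)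

/-- the powers of `A = r T`, `A` small -/
private lemma pow88 {M A g h k : ℝ} (hM : 1 ≤ M) (hA1 : 1 ≤ A) (hA : A ≤ M ^ k)
    (hg1 : 1 / 4 ≤ g) (hh : k * (rI g - 1 / 2) ≤ h - (1 - g)) :
    A ^ (rI g) ≤ Real.sqrt A * M ^ (h - (1 - g)) := by
  have hM0 : 0 < M := by linarith
  have hA0 : 0 < A := by linarith
  have hr1 : 1 / 2 ≤ rI g := rI_half (by linarith)
  have h1 : A ^ (rI g) = A ^ (1 / 2 : ℝ) * A ^ (rI g - 1 / 2) := by
    rw [← Real.rpow_add hA0]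
    congr 1
    ring
  rw [h1, Real.sqrt_eq_rpow]
  apply mul_le_mul_of_nonneg_left _ (by positivity)
  have h2 : 0 ≤ rI g - 1 / 2 := by linarith
  calc A ^ (rI g - 1 / 2) ≤ (M ^ k) ^ (rI g - 1 / 2) := Real.rpow_le_rpow hA0.le hA h2
    _ = M ^ (k * (rI g - 1 / 2)) := by rw [← Real.rpow_mul hM0.le]
    _ ≤ M ^ (h - (1 - g)) := Real.rpow_le_rpow_of_exponent_le hM hh

/-- the exponents for small `A` -/
private lemma expo88 {a g : ℝ} (ha : 1 / 2 ≤ a) (ha1 : a ≤ 3 / 4) (hg : 1 - a ≤ g) :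
    (7 - 4 * a) / 10 * (rI g - 1 / 2) ≤ (13 + 4 * a) / 20 - (1 - g) := by
  have h1 : 0 < 1 + g := by linarith
  have h2 : 0 < 2 - a := by linarith
  have h3 : (13 + 4 * a) / 20 - (1 - g) - (7 - 4 * a) / 10 * (rI g - 1 / 2) =
      (g - (1 - a)) * ((1 + g) * (2 - a) - 3 * ((7 - 4 * a) / 10)) / ((1 + g) * (2 - a)) +
        (1 - a) * (2 * a - 1) / (10 * (2 - a)) := by
    unfold rI
    field_simp
    ring
  have h4 : 0 ≤ (1 + g) * (2 - a) - 3 * ((7 - 4 * a) / 10) := by nlinarith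
  have h5 : 0 ≤ (g - (1 - a)) * ((1 + g) * (2 - a) - 3 * ((7 - 4 * a) / 10)) / ((1 + g) * (2 - a)) := by
    have : 0 ≤ g - (1 - a) := by linarith
    positivity
  have h6 : 0 ≤ (1 - a) * (2 * a - 1) / (10 * (2 - a)) := by
    have e1 : 0 ≤ 1 - a := by linarith
    have e2 : 0 ≤ 2 * a - 1 := by linarith
    positivity
  linarith

/-- the sum over one level for large `A` -/
private lemma lar88 {ε a g A M : ℝ} (hε : 0 < ε) (ha : 1 / 2 ≤ a) (hM : 1 ≤ M) (hA1 : 1 ≤ A)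
    (hA : A ≤ M ^ (1 / 2 + ε)) (hk : M ^ ((7 - 4 * a) / 10) < A) (hg : 1 - a ≤ g) :
    ((A * M ^ (2 / 5 : ℝ) + A ^ (3 / 5 : ℝ) * M ^ (3 / 5 : ℝ)) / (M ^ (1 - g)) ^ (4 / 5 : ℝ) + M / M ^ (1 - g)) *
      M ^ (1 - g + 2 * ε) ≤ 3 * (M ^ ((13 + 4 * a) / 20 + 3 * ε) * Real.sqrt A) := by
  have hM0 : 0 < M := by linarith
  have hA0 : 0 < A := by linarith
  obtain ⟨u, hu⟩ : ∃ u : ℝ, u = 1 - g := ⟨_, rfl⟩
  rw [← hu]
  have hua : u ≤ a := by linarith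
  have hs : Real.sqrt A = A ^ (1 / 2 : ℝ) := Real.sqrt_eq_rpow A
  have e1 : (A * M ^ (2 / 5 : ℝ)) / (M ^ u) ^ (4 / 5 : ℝ) * M ^ (u + 2 * ε) ≤
      M ^ ((13 + 4 * a) / 20 + 3 * ε) * Real.sqrt A := by
    have f1 : A = A ^ (1 / 2 : ℝ) * A ^ (1 / 2 : ℝ) := by
      rw [← Real.rpow_add hA0]
      norm_num
    have f2 : A ^ (1 / 2 : ℝ) ≤ M ^ (1 / 4 + ε / 2) := by
      calc A ^ (1 / 2 : ℝ) ≤ (M ^ (1 / 2 + ε)) ^ (1 / 2 : ℝ) := Real.rpow_le_rpow hA0.le hA (by norm_num)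
        _ = M ^ (1 / 4 + ε / 2) := by
            rw [← Real.rpow_mul hM0.le]
            congr 1
            ring
    have f3 : A * M ^ (2 / 5 : ℝ) / (M ^ u) ^ (4 / 5 : ℝ) * M ^ (u + 2 * ε) =
        A * (M ^ (2 / 5 : ℝ) * M ^ (-(u * (4 / 5))) * M ^ (u + 2 * ε)) := by
      rw [← Real.rpow_mul hM0.le, Real.rpow_neg hM0.le]
      ring
    rw [f3, ← Real.rpow_add hM0, ← Real.rpow_add hM0]
    calc A * M ^ (2 / 5 + -(u * (4 / 5)) + (u + 2 * ε))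
        = A ^ (1 / 2 : ℝ) * (A ^ (1 / 2 : ℝ) * M ^ (2 / 5 + -(u * (4 / 5)) + (u + 2 * ε))) := by
          nth_rewrite 1 [f1]
          ring
      _ ≤ A ^ (1 / 2 : ℝ) * (M ^ (1 / 4 + ε / 2) * M ^ (2 / 5 + -(u * (4 / 5)) + (u + 2 * ε))) := by gcongr
      _ = A ^ (1 / 2 : ℝ) * M ^ (1 / 4 + ε / 2 + (2 / 5 + -(u * (4 / 5)) + (u + 2 * ε))) := by
          rw [← Real.rpow_add hM0]
      _ ≤ A ^ (1 / 2 : ℝ) * M ^ ((13 + 4 * a) / 20 + 3 * ε) := by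
          apply mul_le_mul_of_nonneg_left _ (by positivity)
          exact Real.rpow_le_rpow_of_exponent_le hM (by linarith)
      _ = M ^ ((13 + 4 * a) / 20 + 3 * ε) * Real.sqrt A := by rw [hs]; ring
  have e2 : (A ^ (3 / 5 : ℝ) * M ^ (3 / 5 : ℝ)) / (M ^ u) ^ (4 / 5 : ℝ) * M ^ (u + 2 * ε) ≤
      M ^ ((13 + 4 * a) / 20 + 3 * ε) * Real.sqrt A := by
    have f1 : A ^ (3 / 5 : ℝ) = A ^ (1 / 2 : ℝ) * A ^ (1 / 10 : ℝ) := by
      rw [← Real.rpow_add hA0]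
      norm_num
    have f2 : A ^ (1 / 10 : ℝ) ≤ M ^ (1 / 20 + ε / 10) := by
      calc A ^ (1 / 10 : ℝ) ≤ (M ^ (1 / 2 + ε)) ^ (1 / 10 : ℝ) := Real.rpow_le_rpow hA0.le hA (by norm_num)
        _ = M ^ (1 / 20 + ε / 10) := by
            rw [← Real.rpow_mul hM0.le]
            congr 1
            ring
    have f3 : A ^ (3 / 5 : ℝ) * M ^ (3 / 5 : ℝ) / (M ^ u) ^ (4 / 5 : ℝ) * M ^ (u + 2 * ε) =
        A ^ (3 / 5 : ℝ) * (M ^ (3 / 5 : ℝ) * M ^ (-(u * (4 / 5))) * M ^ (u + 2 * ε)) := by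
      rw [← Real.rpow_mul hM0.le, Real.rpow_neg hM0.le]
      ring
    rw [f3, ← Real.rpow_add hM0, ← Real.rpow_add hM0, f1]
    calc A ^ (1 / 2 : ℝ) * A ^ (1 / 10 : ℝ) * M ^ (3 / 5 + -(u * (4 / 5)) + (u + 2 * ε))
        = A ^ (1 / 2 : ℝ) * (A ^ (1 / 10 : ℝ) * M ^ (3 / 5 + -(u * (4 / 5)) + (u + 2 * ε))) := by ring
      _ ≤ A ^ (1 / 2 : ℝ) * (M ^ (1 / 20 + ε / 10) * M ^ (3 / 5 + -(u * (4 / 5)) + (u + 2 * ε))) := by gcongr
      _ = A ^ (1 / 2 : ℝ) * M ^ (1 / 20 + ε / 10 + (3 / 5 + -(u * (4 / 5)) + (u + 2 * ε))) := by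
          rw [← Real.rpow_add hM0]
      _ ≤ A ^ (1 / 2 : ℝ) * M ^ ((13 + 4 * a) / 20 + 3 * ε) := by
          apply mul_le_mul_of_nonneg_left _ (by positivity)
          exact Real.rpow_le_rpow_of_exponent_le hM (by linarith)
      _ = M ^ ((13 + 4 * a) / 20 + 3 * ε) * Real.sqrt A := by rw [hs]; ring
  have e3 : M / M ^ u * M ^ (u + 2 * ε) ≤ M ^ ((13 + 4 * a) / 20 + 3 * ε) * Real.sqrt A := by
    have f1 : M / M ^ u * M ^ (u + 2 * ε) = M ^ (1 + 2 * ε) := by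
      rw [Real.rpow_add hM0 u, Real.rpow_add hM0 1, Real.rpow_one]
      have : M ^ u ≠ 0 := (Real.rpow_pos_of_pos hM0 u).ne'
      field_simp
    have f2 : M ^ ((7 - 4 * a) / 20) ≤ A ^ (1 / 2 : ℝ) := by
      calc M ^ ((7 - 4 * a) / 20) = (M ^ ((7 - 4 * a) / 10)) ^ (1 / 2 : ℝ) := by
            rw [← Real.rpow_mul hM0.le]
            congr 1
            ring
        _ ≤ A ^ (1 / 2 : ℝ) := Real.rpow_le_rpow (by positivity) hk.le (by norm_num)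
    rw [f1, hs]
    calc M ^ (1 + 2 * ε) ≤ M ^ ((13 + 4 * a) / 20 + 3 * ε + (7 - 4 * a) / 20) :=
          Real.rpow_le_rpow_of_exponent_le hM (by linarith)
      _ = M ^ ((13 + 4 * a) / 20 + 3 * ε) * M ^ ((7 - 4 * a) / 20) := by rw [Real.rpow_add hM0]
      _ ≤ M ^ ((13 + 4 * a) / 20 + 3 * ε) * A ^ (1 / 2 : ℝ) := by gcongr
  have e4 : ((A * M ^ (2 / 5 : ℝ) + A ^ (3 / 5 : ℝ) * M ^ (3 / 5 : ℝ)) / (M ^ u) ^ (4 / 5 : ℝ) + M / M ^ u) *
      M ^ (u + 2 * ε) = (A * M ^ (2 / 5 : ℝ)) / (M ^ u) ^ (4 / 5 : ℝ) * M ^ (u + 2 * ε) +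
        (A ^ (3 / 5 : ℝ) * M ^ (3 / 5 : ℝ)) / (M ^ u) ^ (4 / 5 : ℝ) * M ^ (u + 2 * ε) +
        M / M ^ u * M ^ (u + 2 * ε) := by ring
  rw [e4]
  linarith

private lemma card_cells88 (r T : ℕ) [NeZero r] (hT : 1 ≤ T) :
    (((univ : Finset (DirichletCharacter ℂ r)) ×ˢ Icc (-(T : ℤ)) T).card : ℝ) ≤ 3 * ((r : ℝ) * T) := by
  rw [card_product, Int.card_Icc]
  have h1 : (univ : Finset (DirichletCharacter ℂ r)).card ≤ r := by
    rw [card_univ, ← Nat.card_eq_fintype_card, DirichletCharacter.card_eq_totient_of_hasEnoughRootsOfUnity]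
    exact Nat.totient_le r
  have h2 : ((T : ℤ) + 1 - -(T : ℤ)).toNat = 2 * T + 1 := by omega
  rw [h2]
  have h3 : (univ : Finset (DirichletCharacter ℂ r)).card * (2 * T + 1) ≤ r * (3 * T) :=
    Nat.mul_le_mul h1 (by omega)
  calc (((univ : Finset (DirichletCharacter ℂ r)).card * (2 * T + 1) : ℕ) : ℝ) ≤ ((r * (3 * T) : ℕ) : ℝ) := by
        exact_mod_cast h3
    _ = 3 * ((r : ℝ) * T) := by
        push_cast
        ring

private lemma card_exc88 {r : ℕ} {y : ℝ} (hy : 1 ≤ y)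
    (E : Finset (DirichletCharacter ℂ r × ℤ)) (hE : ∀ p ∈ E, p.1 = 1 ∧ |(p.2 : ℝ)| ≤ y) : (E.card : ℝ) ≤ 3 * y := by
  classical
  have hsub : E ⊆ ({1} : Finset (DirichletCharacter ℂ r)) ×ˢ Icc (-⌊y⌋) ⌊y⌋ := by
    intro p hp
    obtain ⟨h1, h2⟩ := hE p hp
    rw [abs_le] at h2
    rw [mem_product, mem_singleton, mem_Icc]
    refine ⟨h1, ?_, Int.le_floor.2 h2.2⟩
    have h3 : -p.2 ≤ ⌊y⌋ := Int.le_floor.2 (by push_cast; linarith)
    linarith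
  have h1 := card_le_card hsub
  rw [card_product, card_singleton, one_mul, Int.card_Icc] at h1
  have hf0 : 0 ≤ ⌊y⌋ := Int.floor_nonneg.2 (by linarith)
  have h2 : ((⌊y⌋ + 1 - -⌊y⌋).toNat : ℤ) = 2 * ⌊y⌋ + 1 := by
    rw [Int.toNat_of_nonneg (by linarith)]
    ring
  have h3 : (((⌊y⌋ + 1 - -⌊y⌋).toNat : ℕ) : ℝ) = 2 * (⌊y⌋ : ℝ) + 1 := by exact_mod_cast h2
  have h4 : (⌊y⌋ : ℝ) ≤ y := Int.floor_le y
  calc (E.card : ℝ) ≤ (((⌊y⌋ + 1 - -⌊y⌋).toNat : ℕ) : ℝ) := by exact_mod_cast h1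
    _ = 2 * (⌊y⌋ : ℝ) + 1 := h3
    _ ≤ 3 * y := by linarith

/-- the sizes -/
private lemma size88 {M e a C : ℝ} (hM : 1 ≤ M) (he : 0 < e) (hC : 0 < C) {q : ℕ} (hq : (q : ℝ) ≤ M ^ 2) {t : ℝ} {T : ℕ}
    (ht : |t| ≤ T + 1) (hT : (T : ℝ) + 1 ≤ M) :
    C * ((q : ℝ) * (1 + |t|) * M) ^ (e / 4) * M ^ a ≤ C * 2 ^ (e / 4) * M ^ (a + e) := by
  have hM0 : 0 < M := by linarith
  have h1 : (q : ℝ) * (1 + |t|) * M ≤ 2 * M ^ 4 := by
    have h2 : 1 + |t| ≤ 2 * M := by linarith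
    calc (q : ℝ) * (1 + |t|) * M ≤ M ^ 2 * (2 * M) * M := by
          apply mul_le_mul_of_nonneg_right _ hM0.le
          exact mul_le_mul hq h2 (by positivity) (by positivity)
      _ = 2 * M ^ 4 := by ring
  have h3 : ((q : ℝ) * (1 + |t|) * M) ^ (e / 4) ≤ 2 ^ (e / 4) * M ^ e := by
    calc ((q : ℝ) * (1 + |t|) * M) ^ (e / 4) ≤ (2 * M ^ 4) ^ (e / 4) :=
          Real.rpow_le_rpow (by positivity) h1 (by positivity)
      _ = 2 ^ (e / 4) * M ^ e := by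
          rw [Real.mul_rpow (by norm_num) (by positivity), ← Real.rpow_natCast, ← Real.rpow_mul hM0.le]
          congr 2
          push_cast
          ring
  calc C * ((q : ℝ) * (1 + |t|) * M) ^ (e / 4) * M ^ a ≤ C * (2 ^ (e / 4) * M ^ e) * M ^ a := by gcongr
    _ = C * 2 ^ (e / 4) * (M ^ a * M ^ e) := by ring
    _ = C * 2 ^ (e / 4) * M ^ (a + e) := by rw [← Real.rpow_add hM0]

/-- H4: the sum over all cells -/
theorem plr2 {a : ℝ} (ha : 1 / 2 ≤ a) (ha1 : a ≤ 3 / 4) (hMB : MB a)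
    (h : LVr rI (1 - a)) (h' : LVH) : Pool.Helper19.WZ.PLR (1 / 2) ((13 + 4 * a) / 20) := by
  classical
  intro ε hε hε1
  obtain ⟨C₃, hC₃, hL⟩ := h ε hε
  obtain ⟨C₄, hC₄, hL'⟩ := h' ε hε
  obtain ⟨C₀, hC₀'⟩ : ∃ C₀ : ℝ, C₀ = C₃ + 3 * C₄ := ⟨_, rfl⟩
  have hC₀ : 0 < C₀ := by rw [hC₀']; positivity
  obtain ⟨C₁, hC₁, hB₁⟩ := hMB (ε / 4) (by positivity)
  obtain ⟨K, hK⟩ : ∃ K : ℕ, K = ⌈(1 / 2 - (1 - a) : ℝ) / ε⌉₊ + 1 := ⟨_, rfl⟩
  obtain ⟨C₂, hC₂⟩ : ∃ C₂ : ℝ, C₂ = C₁ * 2 ^ (ε / 4) := ⟨_, rfl⟩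
  have hC₂0 : 0 < C₂ := by rw [hC₂]; positivity
  refine ⟨3 * C₂ + 3 + C₀ * C₂ + K * C₀, by positivity, ?_⟩
  intro q r _ _ hrq T X M hT hM hTM hA hq hX1 hX2 s hs
  obtain ⟨A, hAdef⟩ : ∃ A : ℝ, A = (r : ℝ) * T := ⟨_, rfl⟩
  rw [← hAdef] at hA ⊢
  have hr1 : (1 : ℝ) ≤ r := by exact_mod_cast Nat.one_le_iff_ne_zero.2 (NeZero.ne r)
  have hT1 : (1 : ℝ) ≤ T := by exact_mod_cast hT
  have hA1 : 1 ≤ A := by rw [hAdef]; nlinarith
  have hA0 : 0 < A := by linarith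
  have hM0 : 0 < M := by linarith
  have hAM : (r : ℝ) * T ≤ M := by
    rw [← hAdef]
    refine hA.trans ?_
    calc M ^ (1 / 2 + ε) ≤ M ^ (1 : ℝ) := Real.rpow_le_rpow_of_exponent_le hM (by linarith)
      _ = M := Real.rpow_one M
  obtain ⟨H, hH⟩ : ∃ H : ℝ, H = (13 + 4 * a) / 20 := ⟨_, rfl⟩
  have hH34 : 3 / 4 ≤ H := by rw [hH]; linarith
  have hHa : a ≤ H := by rw [hH]; linarith
  rw [← hH]
  obtain ⟨cells, hcells⟩ : ∃ cells : Finset (DirichletCharacter ℂ r × ℤ),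
    cells = (univ : Finset (DirichletCharacter ℂ r)) ×ˢ Icc (-(T : ℤ)) T := ⟨_, rfl⟩
  rw [← hcells]
  obtain ⟨v, hv⟩ : ∃ v : DirichletCharacter ℂ r × ℤ → ℝ, v = fun p => ‖Mt X M q p.1 (s p)‖ * Real.sqrt M := ⟨_, rfl⟩
  have hgoal : ∑ p ∈ cells, ‖Mt X M q p.1 (s p)‖ * Real.sqrt M = ∑ p ∈ cells, v p := by rw [hv]
  rw [hgoal]
  have hv0 : ∀ p, 0 ≤ v p := fun p => by rw [hv]; positivity
  have hvB : ∀ p ∈ cells, v p ≤ C₂ * M ^ (a + ε) := by
    intro p hp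
    rw [hcells, mem_product, mem_Icc] at hp
    have ht : |s p| ≤ (T : ℝ) + 1 := by
      obtain ⟨h1, h2⟩ := hs p
      have h3 : (-(T : ℝ)) ≤ p.2 := by exact_mod_cast hp.2.1
      have h4 : (p.2 : ℝ) ≤ T := by exact_mod_cast hp.2.2
      rw [abs_le]
      constructor <;> linarith
    rw [hv, hC₂]
    exact (hB₁ q r hrq p.1 (s p) M X hM hX1).trans (size88 hM hε hC₁ hq ht hTM)
  obtain ⟨Ex, hEx⟩ : ∃ Ex : DirichletCharacter ℂ r × ℤ → Prop, Ex = fun p => p.1 = 1 ∧ |(p.2 : ℝ)| ≤ M ^ ε := ⟨_, rfl⟩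
  obtain ⟨E, hE⟩ : ∃ E, E = cells.filter Ex := ⟨_, rfl⟩
  obtain ⟨Na, hNa⟩ : ∃ Na, Na = cells.filter (fun p => v p < M ^ (1 / 2 + ε)) := ⟨_, rfl⟩
  obtain ⟨Nb, hNb⟩ : ∃ Nb, Nb = cells.filter (fun p => ¬ Ex p ∧ M ^ (1 - (1 - a) + ε) ≤ v p) := ⟨_, rfl⟩
  obtain ⟨W, hW'⟩ : ∃ W : ℕ → Finset (DirichletCharacter ℂ r × ℤ), W = fun j => cells.filter
    (fun p => ¬ Ex p ∧ M ^ (1 - gj88 (1 - a) ε j + ε) ≤ v p ∧ v p ≤ M ^ (1 - gj88 (1 - a) ε j + 2 * ε)) := ⟨_, rfl⟩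
  have hMe : 1 ≤ M ^ ε := Real.one_le_rpow hM hε.le
  have hsA : 1 ≤ Real.sqrt A := by rw [Real.one_le_sqrt]; exact hA1
  have hsA0 : 0 ≤ Real.sqrt A := Real.sqrt_nonneg _
  have hMc : 0 < M ^ H := Real.rpow_pos_of_pos hM0 _
  obtain ⟨P, hP⟩ : ∃ P : ℝ, P = M ^ (5 * ε + H) * Real.sqrt A := ⟨_, rfl⟩
  have hP0 : 0 ≤ P := by rw [hP]; positivity
  -- splitting
  have hsplit : ∑ p ∈ cells, v p ≤ ∑ p ∈ E, v p + ∑ p ∈ Na, v p + ∑ p ∈ Nb, v p +
      ∑ j ∈ range K, ∑ p ∈ W j, v p := by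
    have h1 : ∀ p ∈ cells, v p ≤ (if Ex p then v p else 0) + (if v p < M ^ (1 / 2 + ε) then v p else 0) +
        (if ¬ Ex p ∧ M ^ (1 - (1 - a) + ε) ≤ v p then v p else 0) +
        ∑ j ∈ range K, (if ¬ Ex p ∧ M ^ (1 - gj88 (1 - a) ε j + ε) ≤ v p ∧ v p ≤ M ^ (1 - gj88 (1 - a) ε j + 2 * ε)
          then v p else 0) := by
      intro p _
      have hn1 : 0 ≤ (if Ex p then v p else 0) := by split_ifs; exacts [hv0 p, le_rfl]
      have hn2 : 0 ≤ (if v p < M ^ (1 / 2 + ε) then v p else 0) := by split_ifs; exacts [hv0 p, le_rfl]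
      have hn3 : 0 ≤ (if ¬ Ex p ∧ M ^ (1 - (1 - a) + ε) ≤ v p then v p else 0) := by split_ifs; exacts [hv0 p, le_rfl]
      have hn4 : ∀ j ∈ range K, 0 ≤ (if ¬ Ex p ∧ M ^ (1 - gj88 (1 - a) ε j + ε) ≤ v p ∧
          v p ≤ M ^ (1 - gj88 (1 - a) ε j + 2 * ε) then v p else 0) := by
        intro j _
        split_ifs
        exacts [hv0 p, le_rfl]
      have hn5 := sum_nonneg hn4
      by_cases c1 : Ex p
      · rw [if_pos c1] at hn1 ⊢
        linarith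
      · by_cases c2 : v p < M ^ (1 / 2 + ε)
        · rw [if_pos c2] at hn2 ⊢
          linarith
        · by_cases c3 : M ^ (1 - (1 - a) + ε) ≤ v p
          · rw [if_pos (⟨c1, c3⟩ : ¬ Ex p ∧ M ^ (1 - (1 - a) + ε) ≤ v p)] at hn3 ⊢
            linarith
          · push Not at c2 c3
            obtain ⟨j, hj, hj1, hj2⟩ := grid88 hε hM c2 c3
            rw [← hK] at hj
            have h6 := single_le_sum hn4 hj
            rw [if_pos ⟨c1, hj1, hj2⟩] at h6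
            linarith
    refine (sum_le_sum h1).trans (le_of_eq ?_)
    rw [sum_add_distrib, sum_add_distrib, sum_add_distrib, sum_comm, ← sum_filter, ← sum_filter, ← sum_filter,
      ← hE, ← hNa, ← hNb]
    congr 1
    apply sum_congr rfl
    intro j _
    rw [← sum_filter, hW']
  -- exceptional cells
  have hEs : ∑ p ∈ E, v p ≤ 3 * C₂ * P := by
    have h1 : (E.card : ℝ) ≤ 3 * M ^ ε := card_exc88 hMe E fun p hp => by
      rw [hE, mem_filter, hEx] at hp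
      exact hp.2
    have h2 : M ^ ε * M ^ (a + ε) ≤ P := by
      rw [hP, ← Real.rpow_add hM0]
      calc M ^ (ε + (a + ε)) ≤ M ^ (5 * ε + H) := Real.rpow_le_rpow_of_exponent_le hM (by linarith)
        _ ≤ M ^ (5 * ε + H) * Real.sqrt A := le_mul_of_one_le_right (by positivity) hsA
    calc ∑ p ∈ E, v p ≤ ∑ p ∈ E, C₂ * M ^ (a + ε) := sum_le_sum fun p hp => hvB p (by
            rw [hE, mem_filter] at hp
            exact hp.1)
      _ = E.card * (C₂ * M ^ (a + ε)) := by rw [sum_const, nsmul_eq_mul]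
      _ ≤ 3 * M ^ ε * (C₂ * M ^ (a + ε)) := mul_le_mul_of_nonneg_right h1 (by positivity)
      _ = 3 * C₂ * (M ^ ε * M ^ (a + ε)) := by ring
      _ ≤ 3 * C₂ * P := mul_le_mul_of_nonneg_left h2 (by positivity)
  -- small values
  have hNas : ∑ p ∈ Na, v p ≤ 3 * P := by
    have h1 : (Na.card : ℝ) ≤ 3 * A := by
      refine le_trans ?_ (le_trans (card_cells88 r T hT) (by rw [← hAdef]))
      rw [hNa, ← hcells]
      exact_mod_cast card_le_card (filter_subset _ _)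
    have h2 : 0 < M ^ (1 / 2 + ε) := Real.rpow_pos_of_pos hM0 _
    have h3 : A = Real.sqrt A * Real.sqrt A := (Real.mul_self_sqrt hA0.le).symm
    have h4 : Real.sqrt A ≤ M ^ (1 / 4 + ε / 2) := by
      rw [Real.sqrt_eq_rpow]
      calc A ^ (1 / 2 : ℝ) ≤ (M ^ (1 / 2 + ε)) ^ (1 / 2 : ℝ) := Real.rpow_le_rpow hA0.le hA (by norm_num)
        _ = M ^ ((1 / 2 + ε) * (1 / 2)) := by rw [← Real.rpow_mul hM0.le]
        _ = M ^ (1 / 4 + ε / 2) := by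
            congr 1
            ring
    calc ∑ p ∈ Na, v p ≤ ∑ p ∈ Na, M ^ (1 / 2 + ε) := sum_le_sum fun p hp => by
            rw [hNa, mem_filter] at hp
            exact hp.2.le
      _ = Na.card * M ^ (1 / 2 + ε) := by rw [sum_const, nsmul_eq_mul]
      _ ≤ 3 * A * M ^ (1 / 2 + ε) := mul_le_mul_of_nonneg_right h1 h2.le
      _ = 3 * ((Real.sqrt A * M ^ (1 / 2 + ε)) * Real.sqrt A) := by
          nth_rewrite 1 [h3]
          ring
      _ ≤ 3 * P := by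
          apply mul_le_mul_of_nonneg_left _ (by norm_num)
          rw [hP]
          apply mul_le_mul_of_nonneg_right _ hsA0
          calc Real.sqrt A * M ^ (1 / 2 + ε) ≤ M ^ (1 / 4 + ε / 2) * M ^ (1 / 2 + ε) :=
                mul_le_mul_of_nonneg_right h4 h2.le
            _ = M ^ (1 / 4 + ε / 2 + (1 / 2 + ε)) := by rw [← Real.rpow_add hM0]
            _ ≤ M ^ (5 * ε + H) := Real.rpow_le_rpow_of_exponent_le hM (by linarith)
  -- one level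
  have hlev : ∀ g : ℝ, 1 - a ≤ g → g ≤ 1 / 2 → ∀ S : Finset (DirichletCharacter ℂ r × ℤ), S ⊆ cells →
      (∀ p ∈ S, ¬ Ex p) → (∀ p ∈ S, M ^ (1 - g + ε) ≤ v p) → ∀ D : ℝ, 0 < D → (∀ p ∈ S, v p ≤ D * M ^ (1 - g + 2 * ε)) →
      ∑ p ∈ S, v p ≤ C₀ * D * P := by
    intro g hg1 hg2 S hS hS1 hS2 D hD hS3
    rcases le_or_gt A (M ^ ((7 - 4 * a) / 10)) with hk | hk
    · have h1 : (S.card : ℝ) ≤ C₃ * M ^ ε * A ^ (rI g) := by
        rw [hAdef]
        refine hL q r hrq T X M hT hM hAM hq hX1 hX2 s hs S (by rw [← hcells]; exact hS)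
          (fun p hp => ?_) g hg1 hg2 fun p hp => ?_
        · have := hS1 p hp
          rw [hEx] at this
          exact this
        · have := hS2 p hp
          rw [hv] at this
          exact this
      have h2 := pow88 (h := H) (g := g) hM hA1 hk (by linarith) (by rw [hH]; exact expo88 ha ha1 hg1)
      have h3 : 0 < D * M ^ (1 - g + 2 * ε) := by positivity
      have h4 : 0 < C₃ * M ^ ε := by positivity
      calc ∑ p ∈ S, v p ≤ ∑ p ∈ S, D * M ^ (1 - g + 2 * ε) := sum_le_sum hS3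
        _ = S.card * (D * M ^ (1 - g + 2 * ε)) := by rw [sum_const, nsmul_eq_mul]
        _ ≤ C₃ * M ^ ε * A ^ (rI g) * (D * M ^ (1 - g + 2 * ε)) := mul_le_mul_of_nonneg_right h1 h3.le
        _ ≤ C₃ * M ^ ε * (Real.sqrt A * M ^ (H - (1 - g))) * (D * M ^ (1 - g + 2 * ε)) := by
            apply mul_le_mul_of_nonneg_right _ h3.le
            exact mul_le_mul_of_nonneg_left h2 h4.le
        _ = C₃ * D * ((M ^ ε * M ^ (H - (1 - g)) * M ^ (1 - g + 2 * ε)) * Real.sqrt A) := by ring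
        _ = C₃ * D * (M ^ (ε + (H - (1 - g)) + (1 - g + 2 * ε)) * Real.sqrt A) := by
            rw [← Real.rpow_add hM0, ← Real.rpow_add hM0]
        _ ≤ C₃ * D * P := by
            apply mul_le_mul_of_nonneg_left _ (by positivity)
            rw [hP]
            apply mul_le_mul_of_nonneg_right _ hsA0
            exact Real.rpow_le_rpow_of_exponent_le hM (by linarith)
        _ ≤ C₀ * D * P := by
            apply mul_le_mul_of_nonneg_right _ hP0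
            apply mul_le_mul_of_nonneg_right _ hD.le
            rw [hC₀']
            linarith
    · obtain ⟨Q, hQ⟩ : ∃ Q : ℝ, Q = (A * M ^ (2 / 5 : ℝ) + A ^ (3 / 5 : ℝ) * M ^ (3 / 5 : ℝ)) /
        (M ^ (1 - g)) ^ (4 / 5 : ℝ) + M / M ^ (1 - g) := ⟨_, rfl⟩
      have hQ0 : 0 ≤ Q := by rw [hQ]; positivity
      have h1 : (S.card : ℝ) ≤ C₄ * M ^ ε * Q := by
        rw [hQ, hAdef]
        refine hL' q r hrq T X M (M ^ (1 - g)) hT hM hAM hq hX1 hX2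
          (Real.rpow_le_rpow_of_exponent_le hM (by linarith)) ?_ s hs S (by rw [← hcells]; exact hS)
          (fun p hp => ?_) fun p hp => ?_
        · calc M ^ (1 - g) ≤ M ^ (1 : ℝ) := Real.rpow_le_rpow_of_exponent_le hM (by linarith)
            _ = M := Real.rpow_one M
        · have := hS1 p hp
          rw [hEx] at this
          exact this
        · have := hS2 p hp
          rw [hv, Real.rpow_add hM0] at this
          exact this
      have h2 := lar88 hε ha hM hA1 hA hk hg1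
      rw [← hQ, ← hH] at h2
      have h3 : 0 < D * M ^ (1 - g + 2 * ε) := by positivity
      have h4 : 0 < C₄ * M ^ ε * D := by positivity
      calc ∑ p ∈ S, v p ≤ ∑ p ∈ S, D * M ^ (1 - g + 2 * ε) := sum_le_sum hS3
        _ = S.card * (D * M ^ (1 - g + 2 * ε)) := by rw [sum_const, nsmul_eq_mul]
        _ ≤ C₄ * M ^ ε * Q * (D * M ^ (1 - g + 2 * ε)) := mul_le_mul_of_nonneg_right h1 h3.le
        _ = C₄ * M ^ ε * D * (Q * M ^ (1 - g + 2 * ε)) := by ring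
        _ ≤ C₄ * M ^ ε * D * (3 * (M ^ (H + 3 * ε) * Real.sqrt A)) := mul_le_mul_of_nonneg_left h2 h4.le
        _ = 3 * C₄ * D * ((M ^ ε * M ^ (H + 3 * ε)) * Real.sqrt A) := by ring
        _ = 3 * C₄ * D * (M ^ (ε + (H + 3 * ε)) * Real.sqrt A) := by rw [← Real.rpow_add hM0]
        _ ≤ 3 * C₄ * D * P := by
            apply mul_le_mul_of_nonneg_left _ (by positivity)
            rw [hP]
            apply mul_le_mul_of_nonneg_right _ hsA0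
            exact Real.rpow_le_rpow_of_exponent_le hM (by linarith)
        _ ≤ C₀ * D * P := by
            apply mul_le_mul_of_nonneg_right _ hP0
            apply mul_le_mul_of_nonneg_right _ hD.le
            rw [hC₀']
            linarith
  -- very large values
  have hNbs : ∑ p ∈ Nb, v p ≤ C₀ * C₂ * P := by
    refine hlev (1 - a) le_rfl (by linarith) Nb (by rw [hNb]; exact filter_subset _ _) (fun p hp => ?_) (fun p hp => ?_)
      C₂ hC₂0 (fun p hp => ?_)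
    · rw [hNb, mem_filter] at hp
      exact hp.2.1
    · rw [hNb, mem_filter] at hp
      exact hp.2.2
    · rw [hNb, mem_filter] at hp
      refine (hvB p hp.1).trans ?_
      apply mul_le_mul_of_nonneg_left _ hC₂0.le
      exact Real.rpow_le_rpow_of_exponent_le hM (by linarith)
  -- the grid
  have hWs : ∀ j ∈ range K, ∑ p ∈ W j, v p ≤ C₀ * P := by
    intro j _
    obtain ⟨hg1, hg2⟩ := gj_mem88 (g0 := 1 - a) (by linarith) hε j
    have h1 := hlev (gj88 (1 - a) ε j) hg1 hg2 (W j) (by rw [hW']; exact filter_subset _ _) (fun p hp => by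
        rw [hW', mem_filter] at hp
        exact hp.2.1) (fun p hp => by
        rw [hW', mem_filter] at hp
        exact hp.2.2.1) 1 one_pos (fun p hp => by
        rw [hW', mem_filter] at hp
        rw [one_mul]
        exact hp.2.2.2)
    rw [mul_one] at h1
    exact h1
  have hWsum : ∑ j ∈ range K, ∑ p ∈ W j, v p ≤ K * (C₀ * P) := by
    refine (sum_le_sum hWs).trans (le_of_eq ?_)
    rw [sum_const, card_range, nsmul_eq_mul]
  have hfin : (3 * C₂ + 3 + C₀ * C₂ + K * C₀) * M ^ (5 * ε) * Real.sqrt A * M ^ H =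
      (3 * C₂ + 3 + C₀ * C₂ + K * C₀) * P := by
    rw [hP, Real.rpow_add hM0]
    ring
  rw [hfin]
  linarith

end Pool.Agent.Helper88.WH
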